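import Pool.Agent.TH950.FC.GlueDefs

set_option autoImplicit false
set_option linter.unusedSectionVars false

/-!
# Job 889: construction of the glued state
-/

namespace Pool.Agent.TH377.J889

open Pool.Agent.TH950.FC Pool.Agent.TH950.FC.LG
open scoped symmDiff

variable {S Q H : Type} [DecidableEq Q]

/-- the hypotheses of the construction -/
structure Hyp (T : Theta S Q) [Group H] (a : S → H) (st : St S Q H) (x₀ : Vt Q) (q₀ : Q) :
    Prop where
  ha : ∀ s, a s * a s = 1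
  hrel : ∀ q w, T.cov.Path (q, ∅) w (q, ∅) → (w.map a).prod = 1
  hst : Basic T a st
  hI : Inv T 6 st
  hx : x₀ ∈ st.dom
  hq : ¬ st.Ch T x₀ q₀

/-- a vertex of the cover and a vertex of the state reached by the same word -/
def Old (T : Theta S Q) (st : St S Q H) (x₀ : Vt Q) (q₀ : Q) (c : Q × Finset (Sym2 Q))
    (y : Vt Q) : Prop :=
  ∃ w, T.cov.Path (q₀, ∅) w c ∧ st.X.Path x₀ w y

section old

variable {T : Theta S Q} [Group H] {a : S → H} {st : St S Q H} {x₀ : Vt Q} {q₀ : Q}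

theorem Old.red {c : Q × Finset (Sym2 Q)} {y : Vt Q} (h : Old T st x₀ q₀ c y) :
    ∃ w, Red w ∧ T.cov.Path (q₀, ∅) w c ∧ st.X.Path x₀ w y := by
  obtain ⟨w, h1, h2⟩ := h
  obtain ⟨w', hr, -, -, hp⟩ := exists_red w
  exact ⟨w', hr, hp _ _ _ h1, hp _ _ _ h2⟩

theorem mem_D0 {c : Q × Finset (Sym2 Q)} :
    c ∈ D0 T st x₀ q₀ ↔ ∃ y, Old T st x₀ q₀ c y := by
  constructor
  · rintro ⟨w, y, h1, h2⟩
    exact ⟨y, w, h2, h1.2.1⟩
  · rintro ⟨y, h⟩
    obtain ⟨w, hr, h1, h2⟩ := h.red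
    exact ⟨w, y, ⟨hr, h2, ⟨_, h1.proj⟩⟩, h1⟩

theorem Old.step {c c' : Q × Finset (Sym2 Q)} {y y' : Vt Q} {s : S}
    (h : Old T st x₀ q₀ c y) (hc : T.cov.E s c c') (hy : st.X.E s y y') :
    Old T st x₀ q₀ c' y' := by
  obtain ⟨w, h1, h2⟩ := h
  exact ⟨w ++ [s], path_snoc.2 ⟨_, h1, hc⟩, path_snoc.2 ⟨_, h2, hy⟩⟩

theorem Old.reach {c : Q × Finset (Sym2 Q)} {y : Vt Q} (h : Old T st x₀ q₀ c y) :
    T.cov.Reach (q₀, ∅) c := by
  obtain ⟨w, h1, h2⟩ := h
  exact ⟨w, h1⟩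

theorem Old.g {c : Q × Finset (Sym2 Q)} {y : Vt Q} (h : Old T st x₀ q₀ c y) :
    T.g c.1 = T.g q₀ := by
  obtain ⟨w, h1, h2⟩ := h
  exact g_path h1.proj

theorem Old.notCh (hq : ¬ st.Ch T x₀ q₀) {c : Q × Finset (Sym2 Q)} {y : Vt Q}
    (h : Old T st x₀ q₀ c y) : ¬ st.Ch T y c.1 := by
  obtain ⟨w, h1, h2⟩ := h
  intro hc
  exact hq (hc.path' h1.proj.rev h2.rev)

theorem Old.dom (h0 : Hyp T a st x₀ q₀) {c : Q × Finset (Sym2 Q)} {y : Vt Q}
    (h : Old T st x₀ q₀ c y) : y ∈ st.dom := by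
  obtain ⟨w, h1, h2⟩ := h
  rcases List.eq_nil_or_concat w with rfl | ⟨w', s, rfl⟩
  · obtain rfl : x₀ = y := h2
    exact h0.hx
  · rw [List.concat_eq_append, path_snoc] at h2
    obtain ⟨z, -, hz⟩ := h2
    exact h0.hst.edge_dom (st.X.symm hz)

/-- distances in the overlap -/
theorem Old.card (h0 : Hyp T a st x₀ q₀) {c : Q × Finset (Sym2 Q)} {y y' : Vt Q} {r : Q}
    {u : List S} (h : Old T st x₀ q₀ c y) (hu : Red u) (hc : T.Path c.1 u r)
    (hy : st.X.Path y u y') :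
    100 * u.length ≤ 6 * T.g q₀ ∧ (st.β y ∆ st.β y').card = u.length := by
  have := h0.hI y (h.dom h0) c.1 (h.notCh h0.hq) u y' ⟨hu, hy, ⟨_, hc⟩⟩
  rwa [h.g] at this

theorem Old.base : Old T st x₀ q₀ (q₀, ∅) x₀ := ⟨[], rfl, rfl⟩

theorem Old.proj_inj (h0 : Hyp T a st x₀ q₀) {c c' : Q × Finset (Sym2 Q)} {y y' : Vt Q}
    (h : Old T st x₀ q₀ c y) (h' : Old T st x₀ q₀ c' y') (hcc : c.1 = c'.1) :
    c = c' ∧ y = y' := by
  obtain ⟨w, hr, h1, h2⟩ := h.red
  obtain ⟨w', hr', h1', h2'⟩ := h'.red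
  have e1 := (Old.base (T := T) (st := st) (x₀ := x₀) (q₀ := q₀)).card h0 hr h1.proj h2
  have e2 := (Old.base (T := T) (st := st) (x₀ := x₀) (q₀ := q₀)).card h0 hr' h1'.proj h2'
  have e3 := T.hundred_le q₀
  have p1 : T.Path q₀ w c.1 := h1.proj
  have p2 : T.Path q₀ w' c.1 := hcc ▸ h1'.proj
  have : w = w' := T.girth hr hr' p1 p2 (by omega)
  subst this
  exact ⟨h1.func h1', h2.func h2'⟩

theorem Old.func (h0 : Hyp T a st x₀ q₀) {c : Q × Finset (Sym2 Q)} {y y' : Vt Q}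
    (h : Old T st x₀ q₀ c y) (h' : Old T st x₀ q₀ c y') : y = y' :=
  (h.proj_inj h0 h' rfl).2

/-- the reduced word between two points of the overlap -/
theorem Old.word {c c' : Q × Finset (Sym2 Q)} {y y' : Vt Q}
    (h : Old T st x₀ q₀ c y) (h' : Old T st x₀ q₀ c' y') :
    ∃ u, Red u ∧ T.cov.Path c u c' ∧ st.X.Path y u y' := by
  obtain ⟨w, h1, h2⟩ := h
  obtain ⟨w', h1', h2'⟩ := h'
  obtain ⟨u, hr, -, -, hp⟩ := exists_red (w.reverse ++ w')
  exact ⟨u, hr, hp _ _ _ (h1.rev.append h1'), hp _ _ _ (h2.rev.append h2')⟩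

theorem Old.inj (h0 : Hyp T a st x₀ q₀) {c c' : Q × Finset (Sym2 Q)} {y : Vt Q}
    (h : Old T st x₀ q₀ c y) (h' : Old T st x₀ q₀ c' y) : c = c' := by
  obtain ⟨u, hr, h1, h2⟩ := h.word h'
  have := (h.card h0 hr h1.proj h2).2
  rw [symmDiff_self] at this
  have h3 : u = [] := List.length_eq_zero_iff.1 (by simpa using this.symm)
  subst h3
  exact h1

/-- an edge of the cover between two points of the overlap is an edge of the state -/
theorem Old.full (h0 : Hyp T a st x₀ q₀) {c c' : Q × Finset (Sym2 Q)} {y y' : Vt Q} {s : S}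
    (h : Old T st x₀ q₀ c y) (h' : Old T st x₀ q₀ c' y') (hc : T.cov.E s c c') :
    st.X.E s y y' := by
  obtain ⟨w, hr, h1, h2⟩ := h.red
  obtain ⟨w', hr', h1', h2'⟩ := h'.red
  have e1 := (Old.base (T := T) (st := st) (x₀ := x₀) (q₀ := q₀)).card h0 hr h1.proj h2
  have e2 := (Old.base (T := T) (st := st) (x₀ := x₀) (q₀ := q₀)).card h0 hr' h1'.proj h2'
  have e3 := T.hundred_le q₀
  by_cases hl : ∃ w1, w = w1 ++ [s]
  · obtain ⟨w1, rfl⟩ := hl
    obtain ⟨d, hd1, hd2⟩ := path_snoc.1 h1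
    obtain ⟨z, hz1, hz2⟩ := path_snoc.1 h2
    obtain rfl : d = c' := T.cov.func (T.cov.symm hd2) hc
    obtain rfl : z = y' := Old.func h0 ⟨w1, hd1, hz1⟩ h'
    exact st.X.symm hz2
  · have hr2 : Red (w ++ [s]) := by
      unfold Red at *
      rw [List.isChain_append]
      refine ⟨hr, List.isChain_singleton s, ?_⟩
      intro t ht t' ht'
      simp only [List.head?_cons, Option.mem_some_iff] at ht'
      subst ht'
      rintro rfl
      apply hl
      rcases List.eq_nil_or_concat w with rfl | ⟨w', s', rfl⟩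
      · simp at ht
      · rw [List.concat_eq_append] at ht ⊢
        simp at ht
        subst ht
        exact ⟨w', rfl⟩
    have h3 : T.cov.Path (q₀, ∅) (w ++ [s]) c' := path_snoc.2 ⟨_, h1, hc⟩
    have : w ++ [s] = w' := T.girth hr2 hr' h3.proj h1'.proj (by
      simp only [List.length_append, List.length_cons, List.length_nil]
      omega)
    subst this
    obtain ⟨z, hz1, hz2⟩ := path_snoc.1 h2'
    rwa [← h2.func hz1] at hz2

end old

section colours

variable {T : Theta S Q} [Group H] {a : S → H} {st : St S Q H} {x₀ : Vt Q} {q₀ : Q}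

theorem card_eq_of_symmDiff {W : Type} [DecidableEq W] {A B A' B' : Finset W} {k : W}
    (h1 : A ∆ A' = {k}) (h2 : B ∆ B' = {k}) : A' ∆ B' = A ∆ B ∧ A' ∆ B = A ∆ B' := by
  have e1 : A' = A ∆ {k} := by rw [← h1, ← symmDiff_assoc, symmDiff_self, bot_symmDiff]
  have e2 : B' = B ∆ {k} := by rw [← h2, ← symmDiff_assoc, symmDiff_self, bot_symmDiff]
  subst e1
  subst e2
  constructor
  · rw [symmDiff_symmDiff_symmDiff_comm, symmDiff_self, symmDiff_bot]
  · rw [symmDiff_right_comm, symmDiff_assoc]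

/-- two edges of the overlap with the same colour: the first and last letter of the word
between nearest ends -/
theorem col_aux (h0 : Hyp T a st x₀ q₀) {c c' d d' : Q × Finset (Sym2 Q)} {y y' z z' : Vt Q}
    {s r : S} (hc : Old T st x₀ q₀ c y) (hc' : Old T st x₀ q₀ c' y')
    (hd : Old T st x₀ q₀ d z) (hd' : Old T st x₀ q₀ d' z')
    (ec : T.cov.E s c c') (ed : T.cov.E r d d')
    (h1 : (st.β y' ∆ st.β z').card = (st.β y ∆ st.β z).card)
    (h2 : (st.β y ∆ st.β z).card ≤ (st.β y' ∆ st.β z).card)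
    (h3 : (st.β y ∆ st.β z).card ≤ (st.β y ∆ st.β z').card) : c = d ∧ c' = d' := by
  obtain ⟨u, hr, hu1, hu2⟩ := hc.word hd
  have ey := hc.full h0 hc' ec
  have ez := hd.full h0 hd' ed
  have e1 := (hc.card h0 hr hu1.proj hu2).2
  by_cases hs : ∃ u1, u = s :: u1
  · exfalso
    obtain ⟨u1, rfl⟩ := hs
    obtain ⟨b, hb, hb'⟩ := hu1
    obtain ⟨v, hv, hv'⟩ := hu2
    obtain rfl := T.cov.func hb ec
    obtain rfl := st.X.func hv ey
    have := (hc'.card h0 hr.tail hb'.proj hv').2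
    simp only [List.length_cons] at e1
    omega
  by_cases hl : ∃ u1, u = u1 ++ [r]
  · exfalso
    obtain ⟨u1, rfl⟩ := hl
    obtain ⟨b, hb, hb'⟩ := path_snoc.1 hu1
    obtain ⟨v, hv, hv'⟩ := path_snoc.1 hu2
    obtain rfl := T.cov.func (T.cov.symm hb') ed
    obtain rfl := st.X.func (st.X.symm hv') ez
    have := (hc.card h0 hr.left hb.proj hv).2
    simp only [List.length_append, List.length_cons, List.length_nil] at e1
    omega
  rcases u with _ | ⟨t, u1⟩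
  · obtain rfl : c = d := hu1
    refine ⟨rfl, ?_⟩
    by_cases hsr : s = r
    · subst hsr
      exact T.cov.func ec ed
    · exfalso
      obtain rfl : y = z := hu2
      have hred : Red [s, r] := red_cons_cons.2 ⟨hsr, red_singleton r⟩
      have hp1 : T.cov.Path c' [s, r] d' := ⟨_, T.cov.symm ec, _, ed, rfl⟩
      have hp2 : st.X.Path y' [s, r] z' := ⟨_, st.X.symm ey, _, ez, rfl⟩
      have := (hc'.card h0 hred hp1.proj hp2).2
      rw [h1, e1] at this
      simp at this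
  · exfalso
    have hst : s ≠ t := by
      rintro rfl
      exact hs ⟨u1, rfl⟩
    have hr1 : Red (s :: t :: u1) := red_cons_cons.2 ⟨hst, hr⟩
    have hr2 : Red ((s :: t :: u1) ++ [r]) := by
      unfold Red at *
      rw [List.isChain_append]
      refine ⟨hr1, List.isChain_singleton r, ?_⟩
      intro x hx x' hx'
      simp only [List.head?_cons, Option.mem_some_iff] at hx'
      subst hx'
      rintro rfl
      apply hl
      rcases List.eq_nil_or_concat (t :: u1) with h | ⟨w', s', h⟩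
      · simp at h
      · rw [List.concat_eq_append] at h
        rw [h] at hx ⊢
        rw [← List.cons_append, List.getLast?_concat] at hx
        simp only [Option.mem_some_iff] at hx
        subst hx
        exact ⟨w', rfl⟩
    have hp1 : T.cov.Path c' ((s :: t :: u1) ++ [r]) d' :=
      path_snoc.2 ⟨d, ⟨c, T.cov.symm ec, hu1⟩, ed⟩
    have hp2 : st.X.Path y' ((s :: t :: u1) ++ [r]) z' :=
      path_snoc.2 ⟨z, ⟨y, st.X.symm ey, hu2⟩, ez⟩
    have := (hc'.card h0 hr2 hp1.proj hp2).2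
    rw [h1, e1] at this
    simp at this

/-- `k` is the colour of an edge of the overlap over the base edge `e` -/
def Col (T : Theta S Q) (st : St S Q H) (x₀ : Vt Q) (q₀ : Q) (e : Sym2 Q) (k : Wt Q) : Prop :=
  ∃ s c c' y y', Old T st x₀ q₀ c y ∧ Old T st x₀ q₀ c' y' ∧ T.cov.E s c c' ∧
    e = s(c.1, c'.1) ∧ st.β y ∆ st.β y' = {k}

theorem Col.edge (h0 : Hyp T a st x₀ q₀) {e e' : Sym2 Q} {k : Wt Q}
    (h : Col T st x₀ q₀ e k) (h' : Col T st x₀ q₀ e' k) : e = e' := by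
  obtain ⟨s, c, c', y, y', hc, hc', ec, rfl, hk⟩ := h
  obtain ⟨r, d, d', z, z', hd, hd', ed, rfl, hk'⟩ := h'
  obtain ⟨f1, f2⟩ := card_eq_of_symmDiff hk hk'
  rcases le_total (st.β y ∆ st.β z).card (st.β y' ∆ st.β z).card with hle | hle
  · obtain ⟨rfl, rfl⟩ := col_aux h0 hc hc' hd hd' ec ed (by rw [f1]) hle (by rw [← f2]; exact hle)
    rfl
  · obtain ⟨rfl, rfl⟩ := col_aux h0 hc' hc hd hd' (T.cov.symm ec) ed (by rw [f2]) hle
      (by rw [f1]; exact hle)
    exact Sym2.eq_swap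

theorem Col.unique (h0 : Hyp T a st x₀ q₀) {e : Sym2 Q} {k k' : Wt Q}
    (h : Col T st x₀ q₀ e k) (h' : Col T st x₀ q₀ e k') : k = k' := by
  obtain ⟨s, c, c', y, y', hc, hc', ec, rfl, hk⟩ := h
  obtain ⟨r, d, d', z, z', hd, hd', ed, he, hk'⟩ := h'
  rw [Sym2.eq_iff] at he
  rcases he with ⟨e1, e2⟩ | ⟨e1, e2⟩
  · obtain ⟨rfl, rfl⟩ := hc.proj_inj h0 hd e1
    obtain ⟨rfl, rfl⟩ := hc'.proj_inj h0 hd' e2
    rw [hk] at hk'
    exact Finset.singleton_injective hk'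
  · obtain ⟨rfl, rfl⟩ := hc.proj_inj h0 hd' e1
    obtain ⟨rfl, rfl⟩ := hc'.proj_inj h0 hd e2
    rw [symmDiff_comm, hk] at hk'
    exact Finset.singleton_injective hk'

theorem Col.of (h0 : Hyp T a st x₀ q₀) {c c' : Q × Finset (Sym2 Q)} {y y' : Vt Q} {s : S}
    (hc : Old T st x₀ q₀ c y) (hc' : Old T st x₀ q₀ c' y') (ec : T.cov.E s c c') :
    ∃ k, Col T st x₀ q₀ s(c.1, c'.1) k := by
  obtain ⟨k, hk⟩ := Finset.card_eq_one.1 (h0.hst.color (hc.full h0 hc' ec))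
  exact ⟨k, s, c, c', y, y', hc, hc', ec, rfl, hk⟩

theorem Col.lt (h0 : Hyp T a st x₀ q₀) {e : Sym2 Q} {k : Wt Q}
    (h : Col T st x₀ q₀ e k) : k.1 < st.t := by
  obtain ⟨s, c, c', y, y', hc, hc', ec, rfl, hk⟩ := h
  have h1 : k ∈ st.β y ∆ st.β y' := by rw [hk]; exact Finset.mem_singleton_self k
  rw [Finset.mem_symmDiff] at h1
  rcases h1 with h1 | h1
  · exact h0.hst.wall_lt (hc.dom h0) _ h1.1
  · exact h0.hst.wall_lt (hc'.dom h0) _ h1.1

theorem col_iff (h0 : Hyp T a st x₀ q₀) {e : Sym2 Q} :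
    (∃ k, Col T st x₀ q₀ e k) ↔ e ∈ edgesOf T (D0 T st x₀ q₀) := by
  constructor
  · rintro ⟨k, s, c, c', y, y', hc, hc', ec, rfl, hk⟩
    exact ⟨s, c, c', mem_D0.2 ⟨y, hc⟩, mem_D0.2 ⟨y', hc'⟩, ec, rfl⟩
  · rintro ⟨s, c, c', hc, hc', ec, rfl⟩
    obtain ⟨y, hc⟩ := mem_D0.1 hc
    obtain ⟨y', hc'⟩ := mem_D0.1 hc'
    exact Col.of h0 hc hc' ec

open Classical in
/-- the walls of the glued block -/
noncomputable def jj (T : Theta S Q) (st : St S Q H) (x₀ : Vt Q) (q₀ : Q) (e : Sym2 Q) : Wt Q :=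
  if h : ∃ k, Col T st x₀ q₀ e k then h.choose else (st.t, e)

theorem jj_col {e : Sym2 Q} (h : ∃ k, Col T st x₀ q₀ e k) :
    Col T st x₀ q₀ e (jj T st x₀ q₀ e) := by
  rw [jj, dif_pos h]
  exact h.choose_spec

theorem jj_new {e : Sym2 Q} (h : ¬ ∃ k, Col T st x₀ q₀ e k) :
    jj T st x₀ q₀ e = (st.t, e) := by
  rw [jj, dif_neg h]

theorem jj_inj (h0 : Hyp T a st x₀ q₀) : Function.Injective (jj T st x₀ q₀) := by
  intro e e' he
  by_cases h : ∃ k, Col T st x₀ q₀ e k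
  · by_cases h' : ∃ k, Col T st x₀ q₀ e' k
    · have h1 := jj_col h
      rw [he] at h1
      exact h1.edge h0 (jj_col h')
    · have h1 := (jj_col h).lt h0
      rw [he, jj_new h'] at h1
      exact absurd h1 (lt_irrefl _)
  · by_cases h' : ∃ k, Col T st x₀ q₀ e' k
    · have h1 := (jj_col h').lt h0
      rw [← he, jj_new h] at h1
      exact absurd h1 (lt_irrefl _)
    · rw [jj_new h, jj_new h'] at he
      exact (Prod.ext_iff.1 he).2

open Classical in
/-- the map of the block to the glued state -/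
noncomputable def iot (T : Theta S Q) (st : St S Q H) (x₀ : Vt Q) (q₀ : Q)
    (c : Q × Finset (Sym2 Q)) : Vt Q :=
  if h : ∃ y, Old T st x₀ q₀ c y then h.choose else (st.t, c)

theorem iot_old (h0 : Hyp T a st x₀ q₀) {c : Q × Finset (Sym2 Q)} {y : Vt Q}
    (h : Old T st x₀ q₀ c y) : iot T st x₀ q₀ c = y := by
  have h' : ∃ y, Old T st x₀ q₀ c y := ⟨y, h⟩
  rw [iot, dif_pos h']
  exact Old.func h0 h'.choose_spec h

theorem iot_old' {c : Q × Finset (Sym2 Q)} (h : ∃ y, Old T st x₀ q₀ c y) :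
    Old T st x₀ q₀ c (iot T st x₀ q₀ c) := by
  rw [iot, dif_pos h]
  exact h.choose_spec

theorem iot_new {c : Q × Finset (Sym2 Q)} (h : ¬ ∃ y, Old T st x₀ q₀ c y) :
    iot T st x₀ q₀ c = (st.t, c) := by
  rw [iot, dif_neg h]

theorem iot_dom (h0 : Hyp T a st x₀ q₀) {c : Q × Finset (Sym2 Q)} :
    iot T st x₀ q₀ c ∈ st.dom ↔ ∃ y, Old T st x₀ q₀ c y := by
  constructor
  · intro h
    by_contra hc
    have := h0.hst.tag_lt h
    rw [iot_new hc] at this
    exact lt_irrefl _ this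
  · intro h
    exact (iot_old' h).dom h0

theorem iot_inj (h0 : Hyp T a st x₀ q₀) : Function.Injective (iot T st x₀ q₀) := by
  intro c c' he
  by_cases h : ∃ y, Old T st x₀ q₀ c y
  · have h1 := (iot_dom h0).2 h
    rw [he] at h1
    have h2 := iot_old' ((iot_dom h0).1 h1)
    rw [← he] at h2
    exact Old.inj h0 (iot_old' h) h2
  · by_cases h' : ∃ y, Old T st x₀ q₀ c' y
    · have h1 := (iot_dom h0).2 h'
      rw [← he] at h1
      exact absurd ((iot_dom h0).1 h1) h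
    · rw [iot_new h, iot_new h'] at he
      exact (Prod.ext_iff.1 he).2

theorem wall_old (h0 : Hyp T a st x₀ q₀) {w : List S} : ∀ {c : Q × Finset (Sym2 Q)} {y : Vt Q},
    T.cov.Path (q₀, ∅) w c → st.X.Path x₀ w y →
    st.β y = st.β x₀ ∆ c.2.image (jj T st x₀ q₀) := by
  induction w using List.reverseRecOn with
  | nil =>
    intro c y hc hy
    obtain rfl : (q₀, ∅) = c := hc
    obtain rfl : x₀ = y := hy
    simp only [Finset.image_empty]
    exact (symmDiff_bot _).symm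
  | append_singleton w s ih =>
    intro c y hc hy
    obtain ⟨d, hd, hdc⟩ := path_snoc.1 hc
    obtain ⟨z, hz, hzy⟩ := path_snoc.1 hy
    have o1 : Old T st x₀ q₀ d z := ⟨w, hd, hz⟩
    have o2 : Old T st x₀ q₀ c y := o1.step hdc hzy
    have h1 := ih hd hz
    obtain ⟨k, hk⟩ := Finset.card_eq_one.1 (h0.hst.color hzy)
    have hcol : Col T st x₀ q₀ s(d.1, c.1) k := ⟨s, d, c, z, y, o1, o2, hdc, rfl, hk⟩
    have hj : jj T st x₀ q₀ s(d.1, c.1) = k := (jj_col ⟨k, hcol⟩).unique h0 hcol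
    have h2 : st.β y = st.β z ∆ {k} := by
      rw [← hk, ← symmDiff_assoc, symmDiff_self, bot_symmDiff]
    rw [h2, h1, hdc.2, symmDiff_image (jj_inj h0), Finset.image_singleton, hj, symmDiff_assoc]

end colours

section cochain

variable {V : Type} {X : LG S V} {ω : S → V → ℤ}

theorem wpath_exists : ∀ {w : List S} {x y : V}, X.Path x w y → ∃ m, X.WPath ω x w y m
  | [], x, y, h => ⟨0, h, rfl⟩
  | s :: w, x, y, ⟨z, hz, h⟩ => by
      obtain ⟨m, hm⟩ := wpath_exists h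
      exact ⟨m + ω s x, z, hz, by rwa [add_sub_cancel_right]⟩

theorem wpath_path : ∀ {w : List S} {x y : V} {m : ℤ}, X.WPath ω x w y m → X.Path x w y
  | [], _, _, _, h => h.1
  | _ :: _, _, _, _, ⟨z, hz, h⟩ => ⟨z, hz, wpath_path h⟩

theorem wpath_func : ∀ {w : List S} {x y y' : V} {m m' : ℤ}, X.WPath ω x w y m →
    X.WPath ω x w y' m' → m = m'
  | [], _, _, _, _, _, h, h' => h.2.trans h'.2.symm
  | s :: w, x, _, _, m, m', ⟨z, hz, h⟩, ⟨z', hz', h'⟩ => by
      obtain rfl := X.func hz hz'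
      have := wpath_func h h'
      linarith

theorem wpath_snoc {w : List S} {s : S} : ∀ {x y : V} {m : ℤ},
    X.WPath ω x (w ++ [s]) y m ↔ ∃ z, X.WPath ω x w z (m - ω s z) ∧ X.E s z y := by
  induction w with
  | nil =>
    intro x y m
    constructor
    · rintro ⟨z, hz, rfl, h⟩
      exact ⟨x, ⟨rfl, h⟩, hz⟩
    · rintro ⟨z, ⟨rfl, h⟩, hz⟩
      exact ⟨y, hz, rfl, h⟩
  | cons r w ih =>
    intro x y m
    constructor
    · rintro ⟨z, hz, h⟩
      obtain ⟨u, hu, hu'⟩ := ih.1 h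
      refine ⟨u, ⟨z, hz, ?_⟩, hu'⟩
      convert hu using 1
      ring
    · rintro ⟨u, ⟨z, hz, hu⟩, hu'⟩
      refine ⟨z, hz, ih.2 ⟨u, ?_, hu'⟩⟩
      convert hu using 1
      ring

end cochain

section psi

variable {T : Theta S Q} [Group H] {a : S → H} {st : St S Q H} {x₀ : Vt Q} {q₀ : Q}

/-- the difference of the two cochains along the reduced word to `c` -/
def Psi (T : Theta S Q) (st : St S Q H) (x₀ : Vt Q) (q₀ : Q) (c : Q × Finset (Sym2 Q))
    (m : ℤ) : Prop :=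
  ∃ w y m₁ m₂, Red w ∧ st.X.WPath st.ω x₀ w y m₁ ∧
    T.cov.WPath (fun s (c : Q × Finset (Sym2 Q)) => T.h s c.1) (q₀, ∅) w c m₂ ∧ m = m₁ - m₂

theorem Psi.unique (h0 : Hyp T a st x₀ q₀) {c : Q × Finset (Sym2 Q)} {m m' : ℤ}
    (h : Psi T st x₀ q₀ c m) (h' : Psi T st x₀ q₀ c m') : m = m' := by
  obtain ⟨w, y, m₁, m₂, hr, h1, h2, rfl⟩ := h
  obtain ⟨w', y', m₁', m₂', hr', h1', h2', rfl⟩ := h'
  have e1 := (Old.base (T := T) (st := st) (x₀ := x₀) (q₀ := q₀)).card h0 hr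
    (wpath_path h2).proj (wpath_path h1)
  have e2 := (Old.base (T := T) (st := st) (x₀ := x₀) (q₀ := q₀)).card h0 hr'
    (wpath_path h2').proj (wpath_path h1')
  have e3 := T.hundred_le q₀
  have p1 : T.Path q₀ w c.1 := (wpath_path h2).proj
  have p2 : T.Path q₀ w' c.1 := (wpath_path h2').proj
  have : w = w' := T.girth hr hr' p1 p2 (by omega)
  subst this
  rw [wpath_func h1 h1', wpath_func h2 h2']

theorem Psi.exists {c : Q × Finset (Sym2 Q)} {y : Vt Q} (h : Old T st x₀ q₀ c y) :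
    ∃ m, Psi T st x₀ q₀ c m := by
  obtain ⟨w, hr, h1, h2⟩ := h.red
  obtain ⟨m₁, hm₁⟩ := wpath_exists (ω := st.ω) h2
  obtain ⟨m₂, hm₂⟩ := wpath_exists (ω := fun s (c : Q × Finset (Sym2 Q)) => T.h s c.1) h1
  exact ⟨_, w, y, m₁, m₂, hr, hm₁, hm₂, rfl⟩

theorem Psi.step (h0 : Hyp T a st x₀ q₀) {c c' : Q × Finset (Sym2 Q)} {y y' : Vt Q} {s : S}
    {m : ℤ} (h : Psi T st x₀ q₀ c m) (hc : Old T st x₀ q₀ c y) (ec : T.cov.E s c c')
    (ey : st.X.E s y y') : Psi T st x₀ q₀ c' (m + st.ω s y - T.h s c.1) := by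
  obtain ⟨w, z, m₁, m₂, hr, h1, h2, rfl⟩ := h
  have hz : Old T st x₀ q₀ c z := ⟨w, wpath_path h2, wpath_path h1⟩
  obtain rfl : z = y := Old.func h0 hz hc
  by_cases hl : ∃ w1, w = w1 ++ [s]
  · obtain ⟨w1, rfl⟩ := hl
    obtain ⟨d, hd1, hd2⟩ := wpath_snoc.1 h2
    obtain ⟨v, hv1, hv2⟩ := wpath_snoc.1 h1
    obtain rfl : d = c' := T.cov.func (T.cov.symm hd2) ec
    obtain rfl : v = y' := st.X.func (st.X.symm hv2) ey
    refine ⟨w1, v, _, _, hr.left, hv1, hd1, ?_⟩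
    have e1 : st.ω s v = - st.ω s z := h0.hst.anti ey
    have e2 : T.h s d.1 = - T.h s c.1 := T.h_anti ec.1
    simp only [e1, e2]
    ring
  · have hr2 : Red (w ++ [s]) := by
      unfold Red at *
      rw [List.isChain_append]
      refine ⟨hr, List.isChain_singleton s, ?_⟩
      intro t ht t' ht'
      simp only [List.head?_cons, Option.mem_some_iff] at ht'
      subst ht'
      rintro rfl
      apply hl
      rcases List.eq_nil_or_concat w with rfl | ⟨w', s', rfl⟩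
      · simp at ht
      · rw [List.concat_eq_append] at ht ⊢
        simp at ht
        subst ht
        exact ⟨w', rfl⟩
    refine ⟨w ++ [s], y', m₁ + st.ω s z, m₂ + T.h s c.1, hr2,
      wpath_snoc.2 ⟨z, by rwa [add_sub_cancel_right], ey⟩,
      wpath_snoc.2 ⟨c, by rwa [add_sub_cancel_right], ec⟩, by ring⟩

open Classical in
/-- the coboundary correction -/
noncomputable def psi (T : Theta S Q) (st : St S Q H) (x₀ : Vt Q) (q₀ : Q)
    (c : Q × Finset (Sym2 Q)) : ℤ :=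
  if h : ∃ m, Psi T st x₀ q₀ c m then h.choose else 0

theorem psi_eq (h0 : Hyp T a st x₀ q₀) {c : Q × Finset (Sym2 Q)} {m : ℤ}
    (h : Psi T st x₀ q₀ c m) : psi T st x₀ q₀ c = m := by
  have h' : ∃ m, Psi T st x₀ q₀ c m := ⟨m, h⟩
  rw [psi, dif_pos h']
  exact Psi.unique h0 h'.choose_spec h

theorem psi_step (h0 : Hyp T a st x₀ q₀) {c c' : Q × Finset (Sym2 Q)} {y y' : Vt Q} {s : S}
    (hc : Old T st x₀ q₀ c y) (ec : T.cov.E s c c') (ey : st.X.E s y y') :
    st.ω s y = T.h s c.1 + psi T st x₀ q₀ c' - psi T st x₀ q₀ c := by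
  obtain ⟨m, hm⟩ := Psi.exists hc
  rw [psi_eq h0 hm, psi_eq h0 (hm.step h0 hc ec ey)]
  ring

/-- the potential along a word -/
theorem pot_word (h0 : Hyp T a st x₀ q₀) {w : List S} : ∀ {x y : Vt Q}, st.X.Path x w y →
    st.p y = st.p x * (w.map a).prod := by
  induction w with
  | nil =>
    intro x y h
    obtain rfl : x = y := h
    simp
  | cons s w ih =>
    rintro x y ⟨z, hz, h⟩
    rw [ih h, h0.hst.pot hz]
    simp [mul_assoc]

theorem prod_rev (h0 : Hyp T a st x₀ q₀) (w : List S) :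
    (w.reverse.map a).prod * (w.map a).prod = 1 := by
  induction w with
  | nil => simp
  | cons s w ih =>
    simp only [List.reverse_cons, List.map_append, List.map_cons, List.map_nil, List.prod_append,
      List.prod_cons, List.prod_nil, mul_one]
    calc _ = (w.reverse.map a).prod * (a s * a s) * (w.map a).prod := by group
      _ = 1 := by rw [h0.ha, mul_one, ih]

theorem prod_eq (h0 : Hyp T a st x₀ q₀) {w w' : List S} {c : Q × Finset (Sym2 Q)}
    (h : T.cov.Path (q₀, ∅) w c) (h' : T.cov.Path (q₀, ∅) w' c) :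
    (w.map a).prod = (w'.map a).prod := by
  have h1 := h0.hrel q₀ (w ++ w'.reverse) (h.append h'.rev)
  rw [List.map_append, List.prod_append] at h1
  have h2 := prod_rev h0 w'
  calc (w.map a).prod = (w.map a).prod * ((w'.reverse.map a).prod * (w'.map a).prod) := by
        rw [h2, mul_one]
    _ = (w'.map a).prod := by rw [← mul_assoc, h1, one_mul]

end psi

section glued

variable {T : Theta S Q} [Group H] {a : S → H} {st : St S Q H} {x₀ : Vt Q} {q₀ : Q}

/-- the edges of the glued state -/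
def gE (T : Theta S Q) (st : St S Q H) (x₀ : Vt Q) (q₀ : Q) (s : S) (x y : Vt Q) : Prop :=
  st.X.E s x y ∨ ∃ c c', T.cov.Reach (q₀, ∅) c ∧ T.cov.E s c c' ∧
    x = iot T st x₀ q₀ c ∧ y = iot T st x₀ q₀ c'

theorem gE_mixed (h0 : Hyp T a st x₀ q₀) {s : S} {y : Vt Q} {c c' : Q × Finset (Sym2 Q)}
    (h1 : st.X.E s (iot T st x₀ q₀ c) y) (ec : T.cov.E s c c') :
    Old T st x₀ q₀ c (iot T st x₀ q₀ c) ∧ Old T st x₀ q₀ c' y ∧ iot T st x₀ q₀ c' = y := by
  have h2 := iot_old' ((iot_dom h0).1 (h0.hst.edge_dom h1))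
  have h3 := h2.step ec h1
  exact ⟨h2, h3, iot_old h0 h3⟩

theorem gE_func (h0 : Hyp T a st x₀ q₀) {s : S} {x y z : Vt Q}
    (h : gE T st x₀ q₀ s x y) (h' : gE T st x₀ q₀ s x z) : y = z := by
  rcases h with h | ⟨c, c', hc, ec, rfl, rfl⟩
  · rcases h' with h' | ⟨d, d', hd, ed, rfl, rfl⟩
    · exact st.X.func h h'
    · exact (gE_mixed h0 h ed).2.2.symm
  · rcases h' with h' | ⟨d, d', hd, ed, hx, rfl⟩
    · exact (gE_mixed h0 h' ec).2.2
    · obtain rfl := iot_inj h0 hx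
      rw [T.cov.func ec ed]

theorem gE_symm {s : S} {x y : Vt Q} (h : gE T st x₀ q₀ s x y) : gE T st x₀ q₀ s y x := by
  rcases h with h | ⟨c, c', hc, ec, rfl, rfl⟩
  · exact Or.inl (st.X.symm h)
  · exact Or.inr ⟨c', c, hc.step ec, T.cov.symm ec, rfl, rfl⟩

open Classical in
/-- the glued state -/
noncomputable def gSt (h0 : Hyp T a st x₀ q₀) : St S Q H where
  dom := {x | x ∈ st.dom ∨ ∃ c, T.cov.Reach (q₀, ∅) c ∧ x = iot T st x₀ q₀ c}
  X := { E := gE T st x₀ q₀, symm := gE_symm, func := gE_func h0 }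
  β := fun x => if x.1 < st.t then st.β x else st.β x₀ ∆ x.2.2.image (jj T st x₀ q₀)
  ω := fun s x => if ∃ y, st.X.E s x y then st.ω s x else
    if h : ∃ c : (Q × Finset (Sym2 Q)) × (Q × Finset (Sym2 Q)), T.cov.E s c.1 c.2 ∧
      x = iot T st x₀ q₀ c.1 then
      T.h s h.choose.1.1 + psi T st x₀ q₀ h.choose.2 - psi T st x₀ q₀ h.choose.1 else 0
  p := fun x => if x.1 < st.t then st.p x else
    if h : T.cov.Reach (q₀, ∅) x.2 then st.p x₀ * (h.choose.map a).prod else 1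
  t := st.t + 1

theorem gSt_E (h0 : Hyp T a st x₀ q₀) {s : S} {x y : Vt Q} :
    (gSt h0).X.E s x y ↔ gE T st x₀ q₀ s x y := Iff.rfl

theorem gSt_β_old (h0 : Hyp T a st x₀ q₀) {x : Vt Q} (hx : x ∈ st.dom) :
    (gSt h0).β x = st.β x := if_pos (h0.hst.tag_lt hx)

theorem gSt_β (h0 : Hyp T a st x₀ q₀) (c : Q × Finset (Sym2 Q)) :
    (gSt h0).β (iot T st x₀ q₀ c) = st.β x₀ ∆ c.2.image (jj T st x₀ q₀) := by
  by_cases h : ∃ y, Old T st x₀ q₀ c y
  · rw [gSt_β_old h0 ((iot_dom h0).2 h)]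
    obtain ⟨w, h1, h2⟩ := iot_old' h
    exact wall_old h0 h1 h2
  · rw [iot_new h]
    exact if_neg (lt_irrefl _)

theorem gSt_ω_old (h0 : Hyp T a st x₀ q₀) {s : S} {x y : Vt Q} (hx : st.X.E s x y) :
    (gSt h0).ω s x = st.ω s x := if_pos ⟨y, hx⟩

open Classical in
theorem gSt_ω (h0 : Hyp T a st x₀ q₀) {s : S} {c c' : Q × Finset (Sym2 Q)}
    (ec : T.cov.E s c c') : (gSt h0).ω s (iot T st x₀ q₀ c) =
      T.h s c.1 + psi T st x₀ q₀ c' - psi T st x₀ q₀ c := by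
  by_cases h : ∃ y, st.X.E s (iot T st x₀ q₀ c) y
  · obtain ⟨y, h⟩ := h
    rw [gSt_ω_old h0 h]
    obtain ⟨h1, h2, h3⟩ := gE_mixed h0 h ec
    exact psi_step h0 h1 ec h
  · have h' : ∃ d : (Q × Finset (Sym2 Q)) × (Q × Finset (Sym2 Q)), T.cov.E s d.1 d.2 ∧
      iot T st x₀ q₀ c = iot T st x₀ q₀ d.1 := ⟨(c, c'), ec, rfl⟩
    have h1 : (gSt h0).ω s (iot T st x₀ q₀ c) =
      T.h s h'.choose.1.1 + psi T st x₀ q₀ h'.choose.2 - psi T st x₀ q₀ h'.choose.1 := by
      show (if ∃ y, st.X.E s (iot T st x₀ q₀ c) y then _ else _) = _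
      rw [if_neg h, dif_pos h']
    rw [h1]
    have h2 := h'.choose_spec
    generalize h'.choose = d at h2
    obtain ⟨h2, h3⟩ := h2
    have h4 := iot_inj h0 h3
    rw [← h4] at h2 ⊢
    rw [T.cov.func h2 ec]

theorem gSt_p_old (h0 : Hyp T a st x₀ q₀) {x : Vt Q} (hx : x ∈ st.dom) :
    (gSt h0).p x = st.p x := if_pos (h0.hst.tag_lt hx)

theorem gSt_p (h0 : Hyp T a st x₀ q₀) {c : Q × Finset (Sym2 Q)} {w : List S}
    (hw : T.cov.Path (q₀, ∅) w c) :
    (gSt h0).p (iot T st x₀ q₀ c) = st.p x₀ * (w.map a).prod := by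
  by_cases h : ∃ y, Old T st x₀ q₀ c y
  · rw [gSt_p_old h0 ((iot_dom h0).2 h)]
    obtain ⟨w', h1, h2⟩ := iot_old' h
    rw [pot_word h0 h2, prod_eq h0 h1 hw]
  · rw [iot_new h]
    have h' : T.cov.Reach (q₀, ∅) c := ⟨w, hw⟩
    have h1 : (gSt h0).p (st.t, c) = st.p x₀ * (h'.choose.map a).prod := by
      show (if st.t < st.t then _ else _) = _
      rw [if_neg (lt_irrefl _), dif_pos h']
    rw [h1, prod_eq h0 h'.choose_spec hw]

theorem gSt_path (h0 : Hyp T a st x₀ q₀) {w : List S} : ∀ {c c' : Q × Finset (Sym2 Q)},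
    T.cov.Reach (q₀, ∅) c → T.cov.Path c w c' →
    (gSt h0).X.Path (iot T st x₀ q₀ c) w (iot T st x₀ q₀ c') := by
  induction w with
  | nil =>
    intro c c' _ h
    rw [show c = c' from h]
    rfl
  | cons s w ih =>
    rintro c c' hr ⟨d, hd, h⟩
    exact ⟨_, Or.inr ⟨c, d, hr, hd, rfl, rfl⟩, ih (hr.step hd) h⟩

theorem iot_base (h0 : Hyp T a st x₀ q₀) : iot T st x₀ q₀ (q₀, ∅) = x₀ := iot_old h0 Old.base

theorem reach_finite (T : Theta S Q) (q₀ : Q) : {c | T.cov.Reach (q₀, ∅) c}.Finite := by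
  classical
  have hF := T.fin (T.g q₀)
  set F : Finset Q := hF.toFinset with hFdef
  have hmem : ∀ q, T.g q = T.g q₀ → q ∈ F := by
    intro q hq
    rw [hFdef, Set.Finite.mem_toFinset]
    exact hq.le
  apply Set.Finite.subset (Finset.finite_toSet (F ×ˢ F.sym2.powerset))
  rintro c ⟨w, hw⟩
  rw [Finset.mem_coe, Finset.mem_product, Finset.mem_powerset]
  have key : ∀ {w : List S} {c c' : Q × Finset (Sym2 Q)}, T.cov.Path c w c' →
      T.g c.1 = T.g q₀ → c.2 ⊆ F.sym2 → T.g c'.1 = T.g q₀ ∧ c'.2 ⊆ F.sym2 := by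
    intro w
    induction w with
    | nil =>
      intro c c' h h1 h2
      rw [← (show c = c' from h)]
      exact ⟨h1, h2⟩
    | cons s w ih =>
      rintro c c' ⟨d, hd, h⟩ h1 h2
      have h3 : T.g d.1 = T.g q₀ := by rw [T.g_edge hd.1, h1]
      refine ih h h3 ?_
      rw [hd.2]
      intro e he
      rw [Finset.mem_symmDiff] at he
      rcases he with he | he
      · exact h2 he.1
      · rw [Finset.mem_singleton.1 he.1, Finset.mk_mem_sym2_iff]
        exact ⟨hmem _ h1, hmem _ h3⟩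
  obtain ⟨h1, h2⟩ := key hw rfl (Finset.empty_subset _)
  exact ⟨hmem _ h1, h2⟩

theorem gSt_basic (h0 : Hyp T a st x₀ q₀) : Basic T a (gSt h0) where
  fin := by
    have h1 : (gSt h0).dom = st.dom ∪ iot T st x₀ q₀ '' {c | T.cov.Reach (q₀, ∅) c} := by
      ext x
      constructor
      · rintro (h | ⟨c, hc, rfl⟩)
        · exact Or.inl h
        · exact Or.inr ⟨c, hc, rfl⟩
      · rintro (h | ⟨c, hc, rfl⟩)
        · exact Or.inl h
        · exact Or.inr ⟨c, hc, rfl⟩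
    rw [h1]
    exact h0.hst.fin.union ((reach_finite T q₀).image _)
  ne := ⟨x₀, Or.inl h0.hx⟩
  edge_dom := by
    rintro s x y (h | ⟨c, c', hc, ec, rfl, rfl⟩)
    · exact Or.inl (h0.hst.edge_dom h)
    · exact Or.inr ⟨c, hc, rfl⟩
  tag_lt := by
    rintro x (h | ⟨c, hc, rfl⟩)
    · exact Nat.lt_succ_of_lt (h0.hst.tag_lt h)
    · by_cases h : ∃ y, Old T st x₀ q₀ c y
      · exact Nat.lt_succ_of_lt (h0.hst.tag_lt ((iot_dom h0).2 h))
      · rw [iot_new h]
        exact Nat.lt_succ_self _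
  wall_lt := by
    rintro x (h | ⟨c, hc, rfl⟩) k hk
    · rw [gSt_β_old h0 h] at hk
      exact Nat.lt_succ_of_lt (h0.hst.wall_lt h k hk)
    · rw [gSt_β, Finset.mem_symmDiff] at hk
      rcases hk with hk | hk
      · exact Nat.lt_succ_of_lt (h0.hst.wall_lt h0.hx k hk.1)
      · obtain ⟨e, -, rfl⟩ := Finset.mem_image.1 hk.1
        by_cases h : ∃ k, Col T st x₀ q₀ e k
        · exact Nat.lt_succ_of_lt ((jj_col h).lt h0)
        · rw [jj_new h]
          exact Nat.lt_succ_self _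
  conn := by
    have h1 : ∀ x, x ∈ (gSt h0).dom → (gSt h0).X.Reach x₀ x := by
      rintro x (h | ⟨c, ⟨w, hw⟩, rfl⟩)
      · obtain ⟨w, hw⟩ := h0.hst.conn h0.hx h
        exact ⟨w, hw.mono (fun s x y h => Or.inl h)⟩
      · refine ⟨w, ?_⟩
        have := gSt_path h0 (Reach.refl _) hw
        rwa [iot_base h0] at this
    intro x y hx hy
    exact (h1 x hx).symm.trans (h1 y hy)
  color := by
    rintro s x y (h | ⟨c, c', hc, ec, rfl, rfl⟩)
    · rw [gSt_β_old h0 (h0.hst.edge_dom h), gSt_β_old h0 (h0.hst.edge_dom (st.X.symm h))]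
      exact h0.hst.color h
    · rw [gSt_β, gSt_β, ec.2, symmDiff_image (jj_inj h0), ← symmDiff_assoc (st.β x₀),
        ← symmDiff_assoc, symmDiff_self, bot_symmDiff, Finset.image_singleton,
        Finset.card_singleton]
  anti := by
    intro s x y h
    by_cases hold : st.X.E s x y
    · rw [gSt_ω_old h0 hold, gSt_ω_old h0 (st.X.symm hold)]
      exact h0.hst.anti hold
    · rcases h with h | ⟨c, c', hc, ec, rfl, rfl⟩
      · exact absurd h hold
      · rw [gSt_ω h0 ec, gSt_ω h0 (T.cov.symm ec), T.h_anti ec.1]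
        ring
  pot := by
    rintro s x y (h | ⟨c, c', ⟨w, hw⟩, ec, rfl, rfl⟩)
    · rw [gSt_p_old h0 (h0.hst.edge_dom h), gSt_p_old h0 (h0.hst.edge_dom (st.X.symm h))]
      exact h0.hst.pot h
    · rw [gSt_p h0 hw, gSt_p h0 (path_snoc.2 ⟨c, hw, ec⟩)]
      simp [mul_assoc]

theorem gSt_glue (h0 : Hyp T a st x₀ q₀) :
    Glue T st (gSt h0) x₀ q₀ (iot T st x₀ q₀) (jj T st x₀ q₀) where
  ext := {
    dom := fun x hx => Or.inl hx
    E := fun h => Or.inl h
    β := fun h => gSt_β_old h0 h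
    ω := fun h => gSt_ω_old h0 h
    p := fun h => gSt_p_old h0 h
    t := Nat.le_succ _ }
  mem := h0.hx
  notCh := h0.hq
  base := iot_base h0
  inj := fun c c' _ _ h => iot_inj h0 h
  dom_iff := fun x => Iff.rfl
  E_iff := fun s x y => Iff.rfl
  old_iff := fun c _ => by rw [iot_dom h0, mem_D0]
  D0_path := fun w c y h1 h2 => iot_old h0 ⟨w, h1, h2⟩
  full := by
    rintro s x y (h | ⟨c, c', hc, ec, rfl, rfl⟩) hx hy
    · exact h
    · exact (iot_old' ((iot_dom h0).1 hx)).full h0 (iot_old' ((iot_dom h0).1 hy)) ec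
  j_inj := jj_inj h0
  wall := fun c _ => by rw [gSt_β, gSt_β_old h0 h0.hx]
  j_old := fun e he => (jj_col ((col_iff h0).2 he)).lt h0
  j_new := fun e he => by rw [jj_new (fun h => he ((col_iff h0).1 h))]
  chart := by
    rintro c ⟨w, hw⟩
    have h1 : (gSt h0).Ch T x₀ q₀ := by
      refine ⟨iot T st x₀ q₀, jj T st x₀ q₀, psi T st x₀ q₀, jj_inj h0, iot_base h0, ?_⟩
      intro c hc
      refine ⟨by rw [gSt_β, gSt_β_old h0 h0.hx], fun s c' ec => ⟨Or.inr ⟨c, c', hc, ec, rfl, rfl⟩,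
        gSt_ω h0 ec⟩⟩
    have h2 := gSt_path h0 (Reach.refl _) hw
    rw [iot_base h0] at h2
    exact h1.path' hw.proj h2

end glued

/-- Construction of the glued state. -/
theorem exists_glue {S Q H : Type} [DecidableEq Q] [Group H] (T : Theta S Q) (a : S → H)
    (ha : ∀ s, a s * a s = 1)
    (hrel : ∀ q w, T.cov.Path (q, ∅) w (q, ∅) → (w.map a).prod = 1)
    (st : St S Q H) (hst : Basic T a st) (hI : Inv T 6 st) (x₀ : Vt Q) (hx₀ : x₀ ∈ st.dom)
    (q₀ : Q) (hq₀ : ¬ st.Ch T x₀ q₀) :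
    ∃ (st' : St S Q H) (ι : Q × Finset (Sym2 Q) → Vt Q) (j : Sym2 Q → Wt Q),
      Glue T st st' x₀ q₀ ι j ∧ Basic T a st' := by
  have h0 : Hyp T a st x₀ q₀ := ⟨ha, hrel, hst, hI, hx₀, hq₀⟩
  exact ⟨gSt h0, iot T st x₀ q₀, jj T st x₀ q₀, gSt_glue h0, gSt_basic h0⟩

end Pool.Agent.TH377.J889
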