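import Mathlib
import Pool.Agent.TH202.FlRes
import Pool.Agent.TH202.Cen

set_option autoImplicit false
namespace Pool.Agent.TH377.FL_TOT
open Pool.Agent.H436R3.Fol Pool.Agent.TH202 MvPolynomial

variable {K : Type} [Field K] [Algebra ℂ K]

theorem ind_reg {w : DVal K} {s f : K} (hs : w.Reg s) (hf : w.Reg f)
    (q : MvPolynomial (Fin 2) ℂ) : w.Reg (aeval ![s, f] q) := by
  induction q using MvPolynomial.induction_on with
  | C a => rw [aeval_C]; exact w.reg_const a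
  | add p q hp hq => rw [map_add]; exact w.reg_add hp hq
  | mul_X p i hp =>
    rw [map_mul, aeval_X]
    refine w.reg_mul hp ?_
    fin_cases i
    · exact hs
    · exact hf

theorem ind_ord {w : DVal K} {s f : K} (h : Ind2 w s f) (q : MvPolynomial (Fin 2) ℂ)
    (hq : q ≠ 0) : aeval ![s, f] q ≠ 0 ∧ w.ord (aeval ![s, f] q) = 0 := by
  have h1 : ¬ w.Pos (aeval ![s, f] q) := h.2.2 q hq
  have h2 := ind_reg h.1 h.2.1 q
  rw [DVal.Pos, not_or, not_lt] at h1
  exact ⟨h1.1, le_antisymm h1.2 (h2.resolve_left h1.1)⟩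

/-- The ultrametric equality. -/
theorem ord_add_lt (w : DVal K) {f g : K} (hf : f ≠ 0) (hg : g ≠ 0) (h : w.ord f < w.ord g) :
    f + g ≠ 0 ∧ w.ord (f + g) = w.ord f := by
  have h0 : f + g ≠ 0 := by
    intro h1
    have h2 : f = -g := by linear_combination h1
    rw [h2, w.ord_neg hg] at h
    exact lt_irrefl _ h
  refine ⟨h0, ?_⟩
  have h1 := w.map_add f g hf hg h0
  have h3 : f + g + -g = f := by ring
  have h2 := w.map_add (f + g) (-g) h0 (neg_ne_zero.2 hg) (by rw [h3]; exact hf)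
  rw [h3, w.ord_neg hg] at h2
  omega

section ev

variable (α β γ : K)

/-- Evaluation of polynomials in three variables, the first one distinguished. -/
noncomputable def ev : Polynomial (MvPolynomial (Fin 2) ℂ) →+* K :=
  Polynomial.eval₂RingHom (aeval ![β, γ] : MvPolynomial (Fin 2) ℂ →ₐ[ℂ] K).toRingHom α

theorem ev_C (q : MvPolynomial (Fin 2) ℂ) : ev α β γ (Polynomial.C q) = aeval ![β, γ] q := by
  simp [ev]

theorem ev_X : ev α β γ Polynomial.X = α := by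
  simp [ev]

variable {α β γ}

theorem ev_ord {w : DVal K} (hα : α ≠ 0) (hw : w.ord α < 0) (hi : Ind2 w β γ) :
    ∀ (n : ℕ) (p : Polynomial (MvPolynomial (Fin 2) ℂ)), p.natDegree = n → p ≠ 0 →
      ev α β γ p ≠ 0 ∧ w.ord (ev α β γ p) = n * w.ord α := by
  intro n
  induction n using Nat.strong_induction_on with
  | _ n ih =>
    intro p hn hp
    have hlc : p.leadingCoeff ≠ 0 := Polynomial.leadingCoeff_ne_zero.2 hp
    have h1 := ind_ord hi p.leadingCoeff hlc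
    have h2 : ev α β γ (Polynomial.C p.leadingCoeff * Polynomial.X ^ p.natDegree) ≠ 0 ∧
        w.ord (ev α β γ (Polynomial.C p.leadingCoeff * Polynomial.X ^ p.natDegree)) =
          n * w.ord α := by
      rw [map_mul, map_pow, ev_C, ev_X]
      refine ⟨mul_ne_zero h1.1 (pow_ne_zero _ hα), ?_⟩
      rw [w.map_mul _ _ h1.1 (pow_ne_zero _ hα), h1.2, w.ord_pow hα, hn, zero_add]
    have h3 := Polynomial.eraseLead_add_C_mul_X_pow p
    rcases Polynomial.eraseLead_natDegree_lt_or_eraseLead_eq_zero p with h4 | h4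
    · by_cases h5 : p.eraseLead = 0
      · rw [h5, zero_add] at h3
        rw [← h3]
        exact h2
      · obtain ⟨h6, h7⟩ := ih _ (by omega) p.eraseLead rfl h5
        have h8 : w.ord (ev α β γ (Polynomial.C p.leadingCoeff * Polynomial.X ^ p.natDegree)) <
            w.ord (ev α β γ p.eraseLead) := by
          rw [h2.2, h7]
          have h9 : ((p.eraseLead.natDegree : ℕ) : ℤ) < (n : ℤ) := by omega
          nlinarith
        have h9 := ord_add_lt w h2.1 h6 h8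
        rw [← map_add, add_comm, h3] at h9
        exact ⟨h9.1, h9.2.trans h2.2⟩
    · rw [h4, zero_add] at h3
      rw [← h3]
      exact h2

theorem exists_ev {x : K} (hx : x ∈ Algebra.adjoin ℂ ({α, β, γ} : Set K)) :
    ∃ p, ev α β γ p = x := by
  induction hx using Algebra.adjoin_induction with
  | mem x hx =>
    rcases hx with rfl | rfl | rfl
    · exact ⟨_, ev_X _ _ _⟩
    · exact ⟨Polynomial.C (X 0), by rw [ev_C, aeval_X]; rfl⟩
    · exact ⟨Polynomial.C (X 1), by rw [ev_C, aeval_X]; rfl⟩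
  | algebraMap c => exact ⟨Polynomial.C (C c), by rw [ev_C, aeval_C]⟩
  | add x y _ _ hx hy =>
    obtain ⟨p, rfl⟩ := hx
    obtain ⟨q, rfl⟩ := hy
    exact ⟨p + q, map_add _ _ _⟩
  | mul x y _ _ hx hy =>
    obtain ⟨p, rfl⟩ := hx
    obtain ⟨q, rfl⟩ := hy
    exact ⟨p * q, map_mul _ _ _⟩

/-- The order of an element of `ℂ(α, β, γ)` is an integral multiple of the order of `α`. -/
theorem exists_N {w w' : DVal K} (hα : α ≠ 0) (hw : w.ord α < 0) (hw' : w'.ord α < 0)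
    (hi : Ind2 w β γ) (hi' : Ind2 w' β γ) {g : K}
    (hg : g ∈ IntermediateField.adjoin ℂ ({α, β, γ} : Set K)) (hg0 : g ≠ 0) :
    ∃ N : ℤ, w.ord g = N * w.ord α ∧ w'.ord g = N * w'.ord α := by
  rw [IntermediateField.mem_adjoin_iff_div] at hg
  obtain ⟨r, hr, s, hs, rfl⟩ := hg
  obtain ⟨p, rfl⟩ := exists_ev hr
  obtain ⟨q, rfl⟩ := exists_ev hs
  have hp : p ≠ 0 := by rintro rfl; simp at hg0
  have hq : q ≠ 0 := by rintro rfl; simp at hg0
  have h1 := ev_ord hα hw hi _ p rfl hp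
  have h2 := ev_ord hα hw hi _ q rfl hq
  have h3 := ev_ord hα hw' hi' _ p rfl hp
  have h4 := ev_ord hα hw' hi' _ q rfl hq
  refine ⟨p.natDegree - q.natDegree, ?_, ?_⟩
  · rw [w.ord_div h1.1 h2.1, h1.2, h2.2]; ring
  · rw [w'.ord_div h3.1 h4.1, h3.2, h4.2]; ring

end ev

/-- `f` has order `M τ` at `w` and `M τ'` at `w'`. -/
def Hom (w w' : DVal K) (τ τ' : ℤ) (f : K) (M : ℤ) : Prop :=
  f ≠ 0 ∧ w.ord f = M * τ ∧ w'.ord f = M * τ'

theorem Hom.add {w w' : DVal K} {τ τ' : ℤ} (hτ : τ < 0) (hτ' : τ' < 0) {f g : K} {M N : ℤ}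
    (hf : Hom w w' τ τ' f M) (hg : Hom w w' τ τ' g N) (h : M ≠ N) :
    Hom w w' τ τ' (f + g) (max M N) := by
  obtain ⟨f0, f1, f2⟩ := hf
  obtain ⟨g0, g1, g2⟩ := hg
  rcases lt_or_gt_of_ne h with hlt | hlt
  · have h1 := ord_add_lt w g0 f0 (by rw [f1, g1]; nlinarith)
    have h2 := ord_add_lt w' g0 f0 (by rw [f2, g2]; nlinarith)
    rw [add_comm] at h1 h2
    rw [max_eq_right hlt.le]
    exact ⟨h1.1, h1.2.trans g1, h2.2.trans g2⟩
  · have h1 := ord_add_lt w f0 g0 (by rw [f1, g1]; nlinarith)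
    have h2 := ord_add_lt w' f0 g0 (by rw [f2, g2]; nlinarith)
    rw [max_eq_left hlt.le]
    exact ⟨h1.1, h1.2.trans f1, h2.2.trans f2⟩

theorem ord_sq_sub {α β γ : K} {w : DVal K} (hα : α ≠ 0) (hw : w.ord α < 0)
    (hi : Ind2 w β γ) : α ^ 2 - 1 ≠ 0 ∧ w.ord (α ^ 2 - 1) = 2 * w.ord α := by
  have h1 : ev α β γ (Polynomial.X ^ 2 - Polynomial.C 1) = α ^ 2 - 1 := by
    rw [map_sub, map_pow, ev_X, ev_C, map_one]
  have h2 : (Polynomial.X ^ 2 - Polynomial.C 1 : Polynomial (MvPolynomial (Fin 2) ℂ)).natDegree = 2 :=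
    Polynomial.natDegree_X_pow_sub_C
  have h3 := ev_ord hα hw hi 2 _ h2 (by intro h; rw [h] at h2; simp at h2)
  rw [h1] at h3
  exact_mod_cast h3

theorem ord_sq_sub' {β γ : K} {w : DVal K} (hi : Ind2 w β γ) :
    β ^ 2 - 1 ≠ 0 ∧ w.ord (β ^ 2 - 1) = 0 := by
  have h1 : aeval ![β, γ] (X 0 ^ 2 - 1 : MvPolynomial (Fin 2) ℂ) = β ^ 2 - 1 := by
    simp
  have h2 : (X 0 ^ 2 - 1 : MvPolynomial (Fin 2) ℂ) ≠ 0 := by
    intro h
    have h3 := congrArg (MvPolynomial.eval ![0, 0]) h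
    simp at h3
  have h3 := ind_ord hi _ h2
  rwa [h1] at h3

/-- Everything is regular if `α = 0`, a contradiction. -/
theorem false_of_zero {β γ r : K}
    (gen : ∀ f : K, ∃ g0 ∈ IntermediateField.adjoin ℂ ({0, β, γ} : Set K),
      ∃ g1 ∈ IntermediateField.adjoin ℂ ({0, β, γ} : Set K),
      ∃ g2 ∈ IntermediateField.adjoin ℂ ({0, β, γ} : Set K), f = g0 + g1 * r + g2 * r ^ 2)
    (hr : r ^ 3 * (β ^ 2 - 1) = 0 ^ 2 - 1 ∨ r ^ 3 * (0 ^ 2 - 1) = β ^ 2 - 1)
    {w : DVal K} (hi : Ind2 w β γ) : False := by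
  have hb := ord_sq_sub' hi
  have hr0 : r ≠ 0 := by
    rintro rfl
    rcases hr with hr | hr
    · norm_num at hr
    · rw [zero_pow (by norm_num), zero_mul] at hr
      exact hb.1 hr.symm
  have hm1 : (0 : K) ^ 2 - 1 ≠ 0 := by norm_num
  have hm2 : w.ord ((0 : K) ^ 2 - 1) = 0 := by
    have h1 : (0 : K) ^ 2 - 1 = -1 := by norm_num
    rw [h1, w.ord_neg one_ne_zero, w.ord_one]
  have hrr : w.Reg r := by
    right
    rcases hr with hr | hr
    · have h1 := congrArg w.ord hr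
      rw [w.map_mul _ _ (pow_ne_zero _ hr0) hb.1, w.ord_pow hr0, hb.2, hm2] at h1
      push_cast at h1
      omega
    · have h1 := congrArg w.ord hr
      rw [w.map_mul _ _ (pow_ne_zero _ hr0) hm1, w.ord_pow hr0, hb.2, hm2] at h1
      push_cast at h1
      omega
  have hev : ∀ x ∈ Algebra.adjoin ℂ ({0, β, γ} : Set K), x ≠ 0 → w.ord x = 0 := by
    intro x hx hx0
    obtain ⟨p, rfl⟩ := exists_ev hx
    have h1 : ev 0 β γ p = aeval ![β, γ] (p.coeff 0) := by
      rw [ev, Polynomial.coe_eval₂RingHom, Polynomial.eval₂_at_zero]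
      rfl
    rw [h1] at hx0 ⊢
    exact (ind_ord hi _ (by intro h; rw [h, map_zero] at hx0; exact hx0 rfl)).2
  have hg : ∀ x ∈ IntermediateField.adjoin ℂ ({0, β, γ} : Set K), w.Reg x := by
    intro x hx
    rw [IntermediateField.mem_adjoin_iff_div] at hx
    obtain ⟨a, ha, b, hb', rfl⟩ := hx
    by_cases ha0 : a = 0
    · left; rw [ha0, zero_div]
    by_cases hb0 : b = 0
    · left; rw [hb0, div_zero]
    right
    rw [w.ord_div ha0 hb0, hev a ha ha0, hev b hb' hb0, sub_zero]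
  have hall : ∀ f : K, w.Reg f := by
    intro f
    obtain ⟨g0, h0, g1, h1, g2, h2, rfl⟩ := gen f
    refine w.reg_add (w.reg_add (hg _ h0) (w.reg_mul (hg _ h1) hrr)) (w.reg_mul (hg _ h2) ?_)
    rw [sq]
    exact w.reg_mul hrr hrr
  obtain ⟨f, hf, hf1⟩ := w.surj
  have h1 := (hall f⁻¹).resolve_left (inv_ne_zero hf)
  rw [w.ord_inv hf, hf1] at h1
  norm_num at h1

/-- Uniqueness of a totally ramified pole. -/
theorem tot {α β γ r : K}
    (gen : ∀ f : K, ∃ g0 ∈ IntermediateField.adjoin ℂ ({α, β, γ} : Set K),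
      ∃ g1 ∈ IntermediateField.adjoin ℂ ({α, β, γ} : Set K),
      ∃ g2 ∈ IntermediateField.adjoin ℂ ({α, β, γ} : Set K), f = g0 + g1 * r + g2 * r ^ 2)
    (hr : r ^ 3 * (β ^ 2 - 1) = α ^ 2 - 1 ∨ r ^ 3 * (α ^ 2 - 1) = β ^ 2 - 1)
    {w w' : DVal K} (hw : w.ord α < 0) (hw' : w'.ord α < 0) (hi : Ind2 w β γ)
    (hi' : Ind2 w' β γ) : Same w w' := by
  by_cases hα : α = 0
  · subst hα
    exact (false_of_zero gen hr hi).elim
  have hA := ord_sq_sub hα hw hi
  have hA' := ord_sq_sub hα hw' hi'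
  have hB := ord_sq_sub' hi
  have hB' := ord_sq_sub' hi'
  have hr0 : r ≠ 0 := by
    rintro rfl
    rcases hr with hr | hr
    · rw [zero_pow (by norm_num), zero_mul] at hr
      exact hA.1 hr.symm
    · rw [zero_pow (by norm_num), zero_mul] at hr
      exact hB.1 hr.symm
  obtain ⟨e, he, hre, hre'⟩ : ∃ e : ℤ, (e = 1 ∨ e = -1) ∧ 3 * w.ord r = 2 * (e * w.ord α) ∧
      3 * w'.ord r = 2 * (e * w'.ord α) := by
    rcases hr with hr | hr
    · refine ⟨1, Or.inl rfl, ?_, ?_⟩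
      · have h1 := congrArg w.ord hr
        rw [w.map_mul _ _ (pow_ne_zero _ hr0) hB.1, w.ord_pow hr0, hB.2, hA.2] at h1
        push_cast at h1
        omega
      · have h1 := congrArg w'.ord hr
        rw [w'.map_mul _ _ (pow_ne_zero _ hr0) hB'.1, w'.ord_pow hr0, hB'.2, hA'.2] at h1
        push_cast at h1
        omega
    · refine ⟨-1, Or.inr rfl, ?_, ?_⟩
      · have h1 := congrArg w.ord hr
        rw [w.map_mul _ _ (pow_ne_zero _ hr0) hA.1, w.ord_pow hr0, hB.2, hA.2] at h1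
        push_cast at h1
        omega
      · have h1 := congrArg w'.ord hr
        rw [w'.map_mul _ _ (pow_ne_zero _ hr0) hA'.1, w'.ord_pow hr0, hB'.2, hA'.2] at h1
        push_cast at h1
        omega
  obtain ⟨τ, hτ⟩ : (3 : ℤ) ∣ w.ord α := by rcases he with rfl | rfl <;> omega
  obtain ⟨τ', hτ'⟩ : (3 : ℤ) ∣ w'.ord α := by rcases he with rfl | rfl <;> omega
  have hr1 : w.ord r = 2 * e * τ := by rcases he with rfl | rfl <;> omega
  have hr1' : w'.ord r = 2 * e * τ' := by rcases he with rfl | rfl <;> omega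
  have hτn : τ < 0 := by omega
  have hτn' : τ' < 0 := by omega
  -- a single term
  have term : ∀ g ∈ IntermediateField.adjoin ℂ ({α, β, γ} : Set K), ∀ i : ℕ, g ≠ 0 →
      ∃ N : ℤ, Hom w w' τ τ' (g * r ^ i) (3 * N + 2 * e * i) := by
    intro g hg i hg0
    obtain ⟨N, h1, h2⟩ := exists_N hα hw hw' hi hi' hg hg0
    refine ⟨N, mul_ne_zero hg0 (pow_ne_zero _ hr0), ?_, ?_⟩
    · rw [w.map_mul _ _ hg0 (pow_ne_zero _ hr0), w.ord_pow hr0, h1, hr1, hτ]
      ring
    · rw [w'.map_mul _ _ hg0 (pow_ne_zero _ hr0), w'.ord_pow hr0, h2, hr1', hτ']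
      ring
  have key : ∀ f : K, f ≠ 0 → ∃ M : ℤ, Hom w w' τ τ' f M := by
    intro f hf
    obtain ⟨g0, h0, g1, h1, g2, h2, rfl⟩ := gen f
    have t0 : g0 = 0 ∨ ∃ N : ℤ, Hom w w' τ τ' g0 (3 * N) := by
      by_cases h : g0 = 0
      · exact Or.inl h
      · obtain ⟨N, hN⟩ := term g0 h0 0 h
        exact Or.inr ⟨N, by simpa using hN⟩
    have t1 : g1 * r = 0 ∨ ∃ N : ℤ, Hom w w' τ τ' (g1 * r) (3 * N + 2 * e) := by
      by_cases h : g1 = 0
      · exact Or.inl (by rw [h, zero_mul])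
      · obtain ⟨N, hN⟩ := term g1 h1 1 h
        exact Or.inr ⟨N, by simpa using hN⟩
    have t2 : g2 * r ^ 2 = 0 ∨ ∃ N : ℤ, Hom w w' τ τ' (g2 * r ^ 2) (3 * N + 4 * e) := by
      by_cases h : g2 = 0
      · exact Or.inl (by rw [h, zero_mul])
      · obtain ⟨N, hN⟩ := term g2 h2 2 h
        refine Or.inr ⟨N, ?_⟩
        convert hN using 1
        push_cast
        ring
    have t01 : g0 + g1 * r = 0 ∨ ∃ M : ℤ, Hom w w' τ τ' (g0 + g1 * r) M ∧
        ((∃ N, M = 3 * N) ∨ ∃ N, M = 3 * N + 2 * e) := by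
      rcases t0 with t0 | ⟨N0, t0⟩
      · rw [t0, zero_add]
        rcases t1 with t1 | ⟨N1, t1⟩
        · exact Or.inl t1
        · exact Or.inr ⟨_, t1, Or.inr ⟨N1, rfl⟩⟩
      · rcases t1 with t1 | ⟨N1, t1⟩
        · rw [t1, add_zero]
          exact Or.inr ⟨_, t0, Or.inl ⟨N0, rfl⟩⟩
        · refine Or.inr ⟨_, t0.add hτn hτn' t1 (by rcases he with rfl | rfl <;> omega), ?_⟩
          rcases max_choice (3 * N0) (3 * N1 + 2 * e) with h | h
          · exact Or.inl ⟨N0, h⟩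
          · exact Or.inr ⟨N1, h⟩
    rcases t01 with t01 | ⟨M, t01, hM⟩
    · rw [t01, zero_add] at hf ⊢
      rcases t2 with t2 | ⟨N2, t2⟩
      · exact absurd t2 hf
      · exact ⟨_, t2⟩
    · rcases t2 with t2 | ⟨N2, t2⟩
      · rw [t2, add_zero]
        exact ⟨M, t01⟩
      · refine ⟨_, t01.add hτn hτn' t2 ?_⟩
        rcases hM with ⟨N, rfl⟩ | ⟨N, rfl⟩ <;> rcases he with rfl | rfl <;> omega
  have e1 : τ = -1 := by
    obtain ⟨f, hf, hf1⟩ := w.surj
    obtain ⟨M, -, h1, -⟩ := key f hf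
    rw [hf1] at h1
    have h2 : τ ∣ 1 := ⟨M, by rw [h1]; ring⟩
    have h3 := Int.isUnit_iff.1 (isUnit_of_dvd_one h2)
    omega
  have e2 : τ' = -1 := by
    obtain ⟨f, hf, hf1⟩ := w'.surj
    obtain ⟨M, -, -, h1⟩ := key f hf
    rw [hf1] at h1
    have h2 : τ' ∣ 1 := ⟨M, by rw [h1]; ring⟩
    have h3 := Int.isUnit_iff.1 (isUnit_of_dvd_one h2)
    omega
  intro f hf
  obtain ⟨M, -, h1, h2⟩ := key f hf
  rw [h1, h2, e1, e2]

end Pool.Agent.TH377.FL_TOT
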